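import Pool.Agent.Lib.H98W.A5
import Pool.Agent.Lib.H41F.E2
import Pool.Agent.Lib.H7B.In
import Pool.Agent.Lib.H98V.T7
import Pool.Agent.Lib.H56N.S0
import Pool.Agent.Lib.H98M.MT

/-!
# H98W, file FIN: the induction on the degree over all tables

`hck_all`: for every crossing table, all connected plane sets with a cut vertex have acyclic complexes of compatible
edges, in every degree. `hz_table`: hypothesis `HZ` of H98Z for every table. `perfect_table`: plane perfect
matchings between disjoint vertex sets of the same size.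
-/

set_option autoImplicit false
set_option linter.unusedSectionVars false

namespace H98W

open Finset H53P H98P H98Z H98M H66N

theorem twinEx : H41F.TwinEx := fun _ _ _ T _ _ _ hρ hπ => H98V.twin_table T hρ hπ

theorem geoEx : H41F.GeoEx := fun _ _ _ T => geo_table T

theorem twinHyp : TwinHyp := by
  intro V _ _ T x w hxw
  obtain ⟨ρ, hρ, hm⟩ := H98V.exists_rotAt T hxw
  refine ⟨ρ, hρ.1, hm, fun π hπ => ?_⟩
  obtain ⟨T', hT'⟩ := H98V.twin_table T hρ hπ
  exact ⟨T', H41F.tw_of hT' hπ⟩

/-- One degree more. -/
theorem hck_succ {k : ℕ} (ih : ∀ (V : Type) [Fintype V] [DecidableEq V] (T : Table V)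
    (W : Finset V), HCk (crossT T) k W) (V : Type) [Fintype V] [DecidableEq V] (T : Table V)
    (W : Finset V) : HCk (crossT T) (k + 1) W := by
  have h2 : H41F.TwoN (k + 1) := fun V _ _ T _ _ _ _ h hc =>
    H7B.two_acyN (H30P.sees_table T) (geo_table T) (ih V T) h hc
  refine hck_of_two (fun V _ _ T v A B F g1 g2 g3 g4 g5 g6 g7 g8 g9 g10 => ?_) twinHyp V T W
  exact H41F.e_two twinEx (H41F.twoC_of_twoN geoEx h2) T g1 g2 g6 g7 g8 g9 g10 g3 g4 g5

theorem hck_all : ∀ (k : ℕ) (V : Type) [Fintype V] [DecidableEq V] (T : Table V) (W : Finset V),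
    HCk (crossT T) k W := by
  intro k
  induction k with
  | zero =>
    intro V _ _ T W F v hF hp _ _ hd
    exact H56N.hck_zero (geo_table T) hF hp hd
  | succ k ih => exact fun V _ _ T W => hck_succ ih V T W

variable {V : Type} [Fintype V] [DecidableEq V]

theorem hc_table (T : Table V) : HC (crossT T) := hc_of_hck fun k W => hck_all k V T W

theorem hd_table (T : Table V) (W : Finset V) : HD (crossT T) W :=
  hd_of_hc (geo_table T) (hc_table T) W

theorem hz_table (T : Table V) (W : Finset V) : HZ (crossT T) W := by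
  refine hz_of_hm (geo_table T).symm (geo_table T).adj
    (fun hW p hp => (geo_table T).v2 W hW p hp) ?_
  intro F C hF hp hCW hCn hne h1 _ _
  refine hd_table T W F hF hp ⟨C, W \ C, hCn, ?_, disjoint_sdiff, ?_, h1⟩
  · rw [sdiff_nonempty]
    exact fun h => hne (subset_antisymm hCW h)
  · rw [union_sdiff_self_eq_union]
    exact union_eq_right.2 hCW

/-- PLANE PERFECT MATCHINGS between any two disjoint sets of vertices of the same size. -/
theorem perfect_table (T : Table V) {A B : Finset V} (hAB : Disjoint A B)
    (h : A.card = B.card) :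
    ∃ f : A ≃ B, ∀ a a' : A, ¬ crossT T s(a.1, (f a).1) s(a'.1, (f a').1) :=
  perfect_of_hz (geo_table T).symm (geo_table T).adj (fun W => hz_table T W) hAB h

end H98W
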