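import Pool.Agent.Lib.H66N.N2

/-!
# H98W, file A1: from all compatible edges to the bridging edges and back, in degree `k`
-/

set_option autoImplicit false
set_option linter.unusedSectionVars false

namespace H98W

open Finset H98P H98Z H98M H66N

variable {V : Type*} [Fintype V] [DecidableEq V]

theorem br_sub_un {cross : Sym2 V → Sym2 V → Prop} {W A B : Finset V} (hA : A ⊆ W) (hB : B ⊆ W)
    (hAB : Disjoint A B) {F : Finset (Sym2 V)} (hs : ∀ x ∈ A, ∀ y ∈ B, s(x, y) ∉ F) :
    Miss cross (br A B) F ⊆ Un cross W F := by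
  intro e he
  rw [mem_miss, mem_br] at he
  obtain ⟨⟨a, ha, b, hb, rfl⟩, h6⟩ := he
  exact mem_un.2 ⟨mem_LW.2 ⟨hA ha, hB hb, fun h => disjoint_left.1 hAB ha (h ▸ hb)⟩, h6, hs a ha b hb⟩

/-- adding a plane set of compatible edges which are not bridging edges -/
theorem add_ok {cross : Sym2 V → Sym2 V → Prop} (hsymm : ∀ e f, cross e f → cross f e)
    {W A B : Finset V} {F Y : Finset (Sym2 V)} (hF : F ⊆ LW W) (hp : Plane cross F)
    (hs : ∀ x ∈ A, ∀ y ∈ B, s(x, y) ∉ F) (hY : Y ⊆ Un cross W F \ Miss cross (br A B) F)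
    (hYn : Y.Nonempty) (hYp : Plane cross Y) :
    F ∪ Y ⊆ LW W ∧ Plane cross (F ∪ Y) ∧ (∀ x ∈ A, ∀ y ∈ B, s(x, y) ∉ F ∪ Y) ∧
      F.card < (F ∪ Y).card := by
  have hYU : ∀ e ∈ Y, e ∈ Un cross W F ∧ e ∉ Miss cross (br A B) F :=
    fun e he => mem_sdiff.1 (hY he)
  have hdis : Disjoint F Y := disjoint_left.2 fun e he hY' => (mem_un.1 (hYU e hY').1).2.2 he
  refine ⟨union_subset hF fun e he => (mem_un.1 (hYU e he).1).1, ?_, ?_, ?_⟩
  · exact plane_un hsymm hp hYp fun e he f hf h => (mem_un.1 (hYU f hf).1).2.1 e he (hsymm _ _ h)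
  · intro x hx y hy h
    rcases mem_union.1 h with h | h
    · exact hs x hx y hy h
    · exact (hYU _ h).2 (mem_miss.2 ⟨mem_br.2 ⟨x, hx, y, hy, rfl⟩, (mem_un.1 (hYU _ h).1).2.1⟩)
  · rw [card_union_of_disjoint hdis]
    have := card_pos.2 hYn
    omega

/-- From all compatible edges, for `F` and all larger sets, to the bridging edges. -/
theorem e_of_mN {cross : Sym2 V → Sym2 V → Prop} (hsymm : ∀ e f, cross e f → cross f e) {k : ℕ}
    {W A B : Finset V} (hA : A ⊆ W) (hB : B ⊆ W) (hAB : Disjoint A B) :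
    ∀ (j : ℕ) (F : Finset (Sym2 V)), (LW W).card - F.card = j →
      (∀ F', F ⊆ F' → F' ⊆ LW W → Plane cross F' → (∀ x ∈ A, ∀ y ∈ B, s(x, y) ∉ F') →
        AcyN cross k (Un cross W F')) →
      F ⊆ LW W → Plane cross F → (∀ x ∈ A, ∀ y ∈ B, s(x, y) ∉ F) →
      AcyN cross k (Miss cross (br A B) F) := by
  intro j
  induction j using Nat.strong_induction_on with
  | _ j ih =>
    intro F hj hM hF hp hs
    have hsub := br_sub_un (cross := cross) hA hB hAB hs
    have hU : Miss cross (br A B) F ∪ (Un cross W F \ Miss cross (br A B) F) = Un cross W F := by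
      rw [union_sdiff_self_eq_union]
      exact union_eq_right.2 hsub
    have h1 := hM F (subset_refl F) hF hp hs
    rw [← hU] at h1
    refine splitN_mp hsymm disjoint_sdiff (fun Y hY hYn hYp => ?_) h1
    obtain ⟨g1, g2, g3, g4⟩ := add_ok hsymm hF hp hs hY hYn hYp
    rw [miss_miss]
    have hc := card_le_card g1
    exact ih _ (by omega) (F ∪ Y) rfl
      (fun F' hF' => hM F' (subset_union_left.trans hF')) g1 g2 g3

/-- From the bridging edges, for `F` and all larger sets, to all compatible edges. -/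
theorem m_of_eN {cross : Sym2 V → Sym2 V → Prop} (hsymm : ∀ e f, cross e f → cross f e) {k : ℕ}
    {W A B : Finset V} (hA : A ⊆ W) (hB : B ⊆ W) (hAB : Disjoint A B) {F : Finset (Sym2 V)}
    (hE : ∀ F', F ⊆ F' → F' ⊆ LW W → Plane cross F' → (∀ x ∈ A, ∀ y ∈ B, s(x, y) ∉ F') →
      AcyN cross k (Miss cross (br A B) F'))
    (hF : F ⊆ LW W) (hp : Plane cross F) (hs : ∀ x ∈ A, ∀ y ∈ B, s(x, y) ∉ F) :
    AcyN cross k (Un cross W F) := by
  have hsub := br_sub_un (cross := cross) hA hB hAB hs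
  have hU : Miss cross (br A B) F ∪ (Un cross W F \ Miss cross (br A B) F) = Un cross W F := by
    rw [union_sdiff_self_eq_union]
    exact union_eq_right.2 hsub
  rw [← hU]
  refine splitN_mpr hsymm disjoint_sdiff (fun Y hY hYn hYp => ?_) (hE F (subset_refl F) hF hp hs)
  obtain ⟨g1, g2, g3, g4⟩ := add_ok hsymm hF hp hs hY hYn hYp
  rw [miss_miss]
  exact (hE _ subset_union_left g1 g2 g3).mono (by omega)

end H98W
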