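import Pool.Agent.Lib.H98W.A1

/-!
# H98W, file A2: at most two colours

`AtMost m W F v`: every colouring of `W - v` which is constant along the edges of `F` has at most `m` colours.
-/

set_option autoImplicit false
set_option linter.unusedSectionVars false

namespace H98W

open Finset H98P H98Z H98M H66N

variable {V : Type*} [Fintype V] [DecidableEq V]

/-- a colouring of `W - v` which is constant along the edges of `F` -/
def Col (W : Finset V) (F : Finset (Sym2 V)) (v : V) (c : V → ℕ) : Prop :=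
  ∀ x ∈ W.erase v, ∀ y ∈ W.erase v, s(x, y) ∈ F → c x = c y

/-- such colourings have at most `m` colours -/
def AtMost (m : ℕ) (W : Finset V) (F : Finset (Sym2 V)) (v : V) : Prop :=
  ∀ c : V → ℕ, Col W F v c → ((W.erase v).image c).card ≤ m

theorem AtMost.mono {m : ℕ} {W : Finset V} {F F' : Finset (Sym2 V)} {v : V} (h : AtMost m W F v)
    (hF : F ⊆ F') : AtMost m W F' v :=
  fun c hc => h c fun x hx y hy hxy => hc x hx y hy (hF hxy)

theorem atMost_card (W : Finset V) (F : Finset (Sym2 V)) (v : V) : AtMost W.card W F v :=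
  fun _ _ => card_image_le.trans (card_le_card (erase_subset v W))

/-- With at most two colours the parts of a separation are connected. -/
theorem conn_of_atMost {W A B : Finset V} {F : Finset (Sym2 V)} {v : V} (h : AtMost 2 W F v)
    (hAB : Disjoint A B) (hABW : A ∪ B = W.erase v) (hs : ∀ x ∈ A, ∀ y ∈ B, s(x, y) ∉ F)
    (hB : B.Nonempty) : Conn F A := by
  intro D hD hDn hDA
  by_contra hcon
  push Not at hcon
  have hc := h (fun z => if z ∈ D then 0 else if z ∈ A then 1 else 2) (by
    intro x hx y hy hxy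
    rw [← hABW, mem_union] at hx hy
    rcases hx with hx | hx <;> rcases hy with hy | hy
    · by_cases h1 : x ∈ D <;> by_cases h2 : y ∈ D
      · simp only [if_pos h1, if_pos h2]
      · exact absurd hxy (hcon x h1 y (mem_sdiff.2 ⟨hy, h2⟩))
      · rw [Sym2.eq_swap] at hxy
        exact absurd hxy (hcon y h2 x (mem_sdiff.2 ⟨hx, h1⟩))
      · simp only [if_neg h1, if_neg h2, if_pos hx, if_pos hy]
    · exact absurd hxy (hs x hx y hy)
    · rw [Sym2.eq_swap] at hxy
      exact absurd hxy (hs y hy x hx)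
    · have h1 : x ∉ A := fun h => disjoint_left.1 hAB h hx
      have h2 : y ∉ A := fun h => disjoint_left.1 hAB h hy
      simp only [if_neg (fun h => h1 (hD h)), if_neg (fun h => h2 (hD h)), if_neg h1, if_neg h2])
  obtain ⟨d, hd⟩ := hDn
  obtain ⟨a, haA, haD⟩ : ∃ a ∈ A, a ∉ D := by
    by_contra h1
    push Not at h1
    exact hDA (subset_antisymm hD h1)
  obtain ⟨b, hb⟩ := hB
  have hbA : b ∉ A := fun h => disjoint_left.1 hAB h hb
  have hW : ∀ z, z ∈ A ∨ z ∈ B → z ∈ W.erase v := fun z hz => by rw [← hABW]; exact mem_union.2 hz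
  have hsub : ({0, 1, 2} : Finset ℕ) ⊆
      (W.erase v).image (fun z => if z ∈ D then 0 else if z ∈ A then 1 else 2) := by
    intro n hn
    rw [mem_insert, mem_insert, mem_singleton] at hn
    rcases hn with rfl | rfl | rfl
    · exact mem_image.2 ⟨d, hW d (Or.inl (hD hd)), if_pos hd⟩
    · exact mem_image.2 ⟨a, hW a (Or.inl haA), by rw [if_neg haD, if_pos haA]⟩
    · exact mem_image.2 ⟨b, hW b (Or.inr hb), by rw [if_neg (fun h => hbA (hD h)), if_neg hbA]⟩
  have h3 := card_le_card hsub
  have h4 : ({0, 1, 2} : Finset ℕ).card = 3 := rfl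
  omega

/-- In a connected `F` every nonempty part of a separation has a neighbour of `v`. -/
theorem exists_nb {W A : Finset V} {F : Finset (Sym2 V)} {v : V} (hc : ¬ Disc W F) (hv : v ∈ W)
    (hA : A ⊆ W.erase v) (hAn : A.Nonempty) (hs : ∀ x ∈ A, ∀ y ∈ W.erase v, y ∉ A → s(x, y) ∉ F) :
    ∃ a ∈ A, s(v, a) ∈ F := by
  by_contra hcon
  push Not at hcon
  refine hc ⟨A, W \ A, hAn, ⟨v, mem_sdiff.2 ⟨hv, fun h => (mem_erase.1 (hA h)).1 rfl⟩⟩,
    disjoint_sdiff, ?_, ?_⟩
  · rw [union_sdiff_self_eq_union]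
    exact union_eq_right.2 fun x hx => mem_of_mem_erase (hA hx)
  · intro x hx y hy h
    rw [mem_sdiff] at hy
    by_cases hyv : y = v
    · subst hyv
      rw [Sym2.eq_swap] at h
      exact hcon x hx h
    · exact hs x hx y (mem_erase.2 ⟨hyv, hy.1⟩) hy.2 h

/-- a separation makes `F - v` disconnected -/
theorem disc_of_sep {W A B : Finset V} {F : Finset (Sym2 V)} {v : V} (hA : A.Nonempty)
    (hB : B.Nonempty) (hAB : Disjoint A B) (hABW : A ∪ B = W.erase v)
    (hs : ∀ x ∈ A, ∀ y ∈ B, s(x, y) ∉ F) : Disc (W.erase v) (F.filter fun e => v ∉ e) :=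
  ⟨A, B, hA, hB, hAB, hABW, fun x hx y hy h => hs x hx y hy (mem_filter.1 h).1⟩

end H98W
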