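import Pool.Agent.Lib.H98W.A2
import Pool.Agent.Lib.H41F.A
import Pool.Agent.Lib.H63L.P0

/-!
# H98W, file A4: a twin of the cut vertex between two colours

Lemmas for the induction on the number of components (step (a)).
-/

set_option autoImplicit false
set_option linter.unusedSectionVars false

namespace H98W

open Finset H53P H98P H98Z H98M H66N H41F

variable {V : Type} [Fintype V] [DecidableEq V]

/-- Consecutive neighbours of `v` of different colours. -/
theorem exists_pair {W : Finset V} {F : Finset (Sym2 V)} {v : V} {ρ : V → ℝ} (hF : F ⊆ LW W)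
    (hi : ∀ a b, a ≠ v → b ≠ v → ρ a = ρ b → a = b) {c : V → ℕ} {y0 q0 : V}
    (hy : s(v, y0) ∈ F) (hq : s(v, q0) ∈ F) (hc : c y0 ≠ c q0) :
    ∃ y q, y ∈ W.erase v ∧ q ∈ W.erase v ∧ s(v, y) ∈ F ∧ s(v, q) ∈ F ∧ c y ≠ c q ∧ ρ q < ρ y ∧
      ∀ z, z ≠ v → s(v, z) ∈ F → ¬ (ρ q < ρ z ∧ ρ z < ρ y) := by
  have hmem : ∀ z, s(v, z) ∈ F → z ∈ W.erase v := fun z hz => by
    have h1 := mem_LW.1 (hF hz)
    exact mem_erase.2 ⟨fun h => h1.2.2 h.symm, h1.2.1⟩
  obtain ⟨P, hP⟩ : ∃ P : Finset (V × V), ∀ p, p ∈ P ↔ s(v, p.1) ∈ F ∧ s(v, p.2) ∈ F ∧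
      c p.1 ≠ c p.2 ∧ ρ p.2 < ρ p.1 := by
    refine ⟨univ.filter fun p : V × V => s(v, p.1) ∈ F ∧ s(v, p.2) ∈ F ∧ c p.1 ≠ c p.2 ∧
      ρ p.2 < ρ p.1, fun p => ?_⟩
    rw [mem_filter]
    exact ⟨fun h => h.2, fun h => ⟨mem_univ _, h⟩⟩
  have hPn : P.Nonempty := by
    have hne : ρ y0 ≠ ρ q0 := fun h => hc (by
      rw [hi y0 q0 (mem_erase.1 (hmem _ hy)).1 (mem_erase.1 (hmem _ hq)).1 h])
    rcases lt_or_gt_of_ne hne with h | h
    · exact ⟨(q0, y0), (hP _).2 ⟨hq, hy, hc.symm, h⟩⟩
    · exact ⟨(y0, q0), (hP _).2 ⟨hy, hq, hc, h⟩⟩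
  obtain ⟨p, hp, hmin⟩ := exists_min_image P (fun p => ρ p.1 - ρ p.2) hPn
  obtain ⟨h1, h2, h3, h4⟩ := (hP p).1 hp
  refine ⟨p.1, p.2, hmem _ h1, hmem _ h2, h1, h2, h3, h4, fun z hz hvz hbt => ?_⟩
  by_cases hcz : c z = c p.2
  · have h5 := hmin (p.1, z) ((hP _).2 ⟨h1, hvz, by rw [hcz]; exact h3, hbt.2⟩)
    simp only at h5
    linarith [hbt.1]
  · have h5 := hmin (z, p.2) ((hP _).2 ⟨hvz, h2, hcz, hbt.1⟩)
    simp only at h5
    linarith [hbt.2]

/-- A free position in an interval. -/
theorem exists_free {v : V} {ρ : V → ℝ} {a b : ℝ} (h : a < b) :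
    ∃ π : ℝ, a < π ∧ π < b ∧ ∀ z, z ≠ v → ρ z ≠ π := by
  have h1 : (Set.Ioo a b).Infinite := Set.Ioo_infinite h
  obtain ⟨π, hπ, h2⟩ := h1.exists_notMem_finset (univ.image ρ)
  exact ⟨π, hπ.1, hπ.2, fun z _ hz => h2 (mem_image.2 ⟨z, mem_univ z, hz⟩)⟩

theorem mp_mem {F : Finset (Sym2 V)} {y q a b : V} :
    s(some a, some b) ∈ F2 F y q ↔ s(a, b) ∈ F := by
  rw [mem_F2]
  constructor
  · rintro (⟨f, hf, h⟩ | h | h)
    · rw [← mp_mk] at h
      rw [← mp_inj h]
      exact hf
    · rw [Sym2.eq_iff] at h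
      rcases h with ⟨h, -⟩ | ⟨-, h⟩ <;> exact absurd h (by simp)
    · rw [Sym2.eq_iff] at h
      rcases h with ⟨h, -⟩ | ⟨-, h⟩ <;> exact absurd h (by simp)
  · intro h
    exact Or.inl ⟨s(a, b), h, rfl⟩

theorem none_mem {F : Finset (Sym2 V)} {y q z : V} :
    s(none, some z) ∈ F2 F y q ↔ z = y ∨ z = q := by
  rw [mem_F2]
  constructor
  · rintro (⟨f, hf, h⟩ | h | h)
    · induction f with
      | _ a b =>
        rw [mp_mk, Sym2.eq_iff] at h
        rcases h with ⟨h, -⟩ | ⟨-, h⟩ <;> exact absurd h (by simp)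
    · rw [Sym2.eq_iff] at h
      rcases h with ⟨-, h⟩ | ⟨h, -⟩
      · exact Or.inl (Option.some.inj h)
      · exact absurd h (by simp)
    · rw [Sym2.eq_iff] at h
      rcases h with ⟨-, h⟩ | ⟨h, -⟩
      · exact Or.inr (Option.some.inj h)
      · exact absurd h (by simp)
  · rintro (rfl | rfl)
    · exact Or.inr (Or.inl rfl)
    · exact Or.inr (Or.inr rfl)

theorem F2_sub {W : Finset V} {F : Finset (Sym2 V)} {y q : V} (hF : F ⊆ LW W) (hy : y ∈ W)
    (hq : q ∈ W) : F2 F y q ⊆ LW (insert none (W.image some)) := by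
  intro e he
  rcases mem_F2.1 he with ⟨f, hf, rfl⟩ | rfl | rfl
  · induction f with
    | _ a b =>
      have h1 := mem_LW.1 (hF hf)
      rw [mp_mk, mem_LW]
      exact ⟨mem_insert_of_mem (mem_image_of_mem _ h1.1), mem_insert_of_mem (mem_image_of_mem _ h1.2.1),
        fun h => h1.2.2 (Option.some.inj h)⟩
  · rw [mem_LW]
    exact ⟨mem_insert_self _ _, mem_insert_of_mem (mem_image_of_mem _ hy), by simp⟩
  · rw [mem_LW]
    exact ⟨mem_insert_self _ _, mem_insert_of_mem (mem_image_of_mem _ hq), by simp⟩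

theorem F2_conn {W : Finset V} {F : Finset (Sym2 V)} {y q : V} (hc : ¬ Disc W F) (hy : y ∈ W) :
    ¬ Disc (insert none (W.image some)) (F2 F y q) := by
  have key : ∀ C D : Finset (Option V), D.Nonempty → Disjoint C D →
      C ∪ D = insert none (W.image some) → (∀ a ∈ C, ∀ b ∈ D, s(a, b) ∉ F2 F y q) → none ∈ C →
      False := by
    intro C D hD hCD hU hs hn
    have hyC : some y ∈ C := by
      have h1 : some y ∈ C ∪ D := by
        rw [hU]
        exact mem_insert_of_mem (mem_image_of_mem _ hy)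
      rcases mem_union.1 h1 with h1 | h1
      · exact h1
      · exact absurd (none_mem.2 (Or.inl rfl)) (hs none hn (some y) h1)
    obtain ⟨d', hd'⟩ := hD
    have hd2 : d' ≠ none := fun h => disjoint_left.1 hCD hn (h ▸ hd')
    obtain ⟨d, rfl⟩ := Option.ne_none_iff_exists'.1 hd2
    refine hc ⟨univ.filter fun z => some z ∈ C, univ.filter fun z => some z ∈ D,
      ⟨y, mem_filter.2 ⟨mem_univ _, hyC⟩⟩, ⟨d, mem_filter.2 ⟨mem_univ _, hd'⟩⟩, ?_, ?_, ?_⟩
    · rw [disjoint_left]
      intro z hz hz2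
      exact disjoint_left.1 hCD (mem_filter.1 hz).2 (mem_filter.1 hz2).2
    · ext z
      rw [mem_union, mem_filter, mem_filter]
      constructor
      · rintro (h | h)
        · have h1 : some z ∈ C ∪ D := mem_union_left _ h.2
          rw [hU, mem_insert] at h1
          rcases h1 with h1 | h1
          · exact absurd h1 (by simp)
          · obtain ⟨z', hz', h2⟩ := mem_image.1 h1
            rw [← Option.some.inj h2]
            exact hz'
        · have h1 : some z ∈ C ∪ D := mem_union_right _ h.2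
          rw [hU, mem_insert] at h1
          rcases h1 with h1 | h1
          · exact absurd h1 (by simp)
          · obtain ⟨z', hz', h2⟩ := mem_image.1 h1
            rw [← Option.some.inj h2]
            exact hz'
      · intro h
        have h1 : some z ∈ C ∪ D := by
          rw [hU]
          exact mem_insert_of_mem (mem_image_of_mem _ h)
        rcases mem_union.1 h1 with h1 | h1
        · exact Or.inl ⟨mem_univ _, h1⟩
        · exact Or.inr ⟨mem_univ _, h1⟩
    · intro a ha b hb h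
      exact hs (some a) (mem_filter.1 ha).2 (some b) (mem_filter.1 hb).2 (mp_mem.2 h)
  rintro ⟨C, D, hC, hD, hCD, hU, hs⟩
  have hn : (none : Option V) ∈ C ∪ D := by
    rw [hU]
    exact mem_insert_self _ _
  rcases mem_union.1 hn with hn | hn
  · exact key C D hD hCD hU hs hn
  · refine key D C hC hCD.symm (by rw [union_comm]; exact hU) (fun a ha b hb h => ?_) hn
    rw [Sym2.eq_swap] at h
    exact hs b hb a ha h

theorem erase_some {W : Finset V} {v : V} :
    (insert none (W.image some)).erase (some v) = insert none ((W.erase v).image some) := by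
  ext z
  rw [mem_erase, mem_insert, mem_insert, mem_image, mem_image]
  constructor
  · rintro ⟨h1, h2 | ⟨z', hz', rfl⟩⟩
    · exact Or.inl h2
    · exact Or.inr ⟨z', mem_erase.2 ⟨fun h => h1 (by rw [h]), hz'⟩, rfl⟩
  · rintro (rfl | ⟨z', hz', rfl⟩)
    · exact ⟨by simp, Or.inl rfl⟩
    · rw [mem_erase] at hz'
      exact ⟨fun h => hz'.1 (Option.some.inj h), Or.inr ⟨z', hz'.2, rfl⟩⟩

/-- The twin joins two colours: one colour less. -/
theorem F2_atMost {W : Finset V} {F : Finset (Sym2 V)} {v y q : V} {m : ℕ}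
    (h : AtMost (m + 1) W F v) (hy : y ∈ W.erase v) (hq : q ∈ W.erase v) {c : V → ℕ}
    (hc : Col W F v c) (hyq : c y ≠ c q) :
    AtMost m (insert none (W.image some)) (F2 F y q) (some v) := by
  intro c' hc'
  rw [erase_some]
  have hmem : ∀ z ∈ W.erase v, some z ∈ (insert none (W.image some)).erase (some v) := by
    intro z hz
    rw [erase_some]
    exact mem_insert_of_mem (mem_image_of_mem _ hz)
  have hnone : (none : Option V) ∈ (insert none (W.image some)).erase (some v) := by
    rw [erase_some]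
    exact mem_insert_self _ _
  have e1 : c' none = c' (some y) := hc' _ hnone _ (hmem y hy) (none_mem.2 (Or.inl rfl))
  have e2 : c' none = c' (some q) := hc' _ hnone _ (hmem q hq) (none_mem.2 (Or.inr rfl))
  obtain ⟨M, hM⟩ : ∃ M : ℕ, ∀ z : V, c' (some z) < M := by
    refine ⟨∑ z : V, c' (some z) + 1, fun z => ?_⟩
    have h1 : c' (some z) ≤ ∑ z : V, c' (some z) :=
      single_le_sum (f := fun z : V => c' (some z)) (fun _ _ => Nat.zero_le _) (mem_univ z)
    omega
  have h1 := h (fun z => if c' (some z) = c' none ∧ c z = c y then M else c' (some z)) (by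
    intro a ha b hb hab
    have h2 : c' (some a) = c' (some b) := hc' _ (hmem a ha) _ (hmem b hb) (mp_mem.2 hab)
    have h3 : c a = c b := hc a ha b hb hab
    show (if c' (some a) = c' none ∧ c a = c y then M else c' (some a)) =
      if c' (some b) = c' none ∧ c b = c y then M else c' (some b)
    rw [h2, h3])
  have hsub : insert M ((insert none ((W.erase v).image some)).image c') ⊆
      (W.erase v).image (fun z => if c' (some z) = c' none ∧ c z = c y then M else c' (some z)) := by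
    intro n hn
    rw [mem_insert, mem_image] at hn
    rcases hn with rfl | ⟨z', hz', rfl⟩
    · exact mem_image.2 ⟨y, hy, if_pos ⟨e1.symm, rfl⟩⟩
    · by_cases h4 : c' z' = c' none
      · refine mem_image.2 ⟨q, hq, ?_⟩
        rw [if_neg (fun h5 => hyq h5.2.symm), h4, e2]
      · rcases mem_insert.1 hz' with rfl | h5
        · exact absurd rfl h4
        · obtain ⟨z, hz, rfl⟩ := mem_image.1 h5
          refine mem_image.2 ⟨z, hz, ?_⟩
          rw [if_neg (fun h5 => h4 h5.1)]
  have hMn : M ∉ (insert none ((W.erase v).image some)).image c' := by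
    intro hn
    obtain ⟨z', hz', h2⟩ := mem_image.1 hn
    rcases mem_insert.1 hz' with rfl | h5
    · have := hM y
      omega
    · obtain ⟨z, hz, rfl⟩ := mem_image.1 h5
      have := hM z
      omega
  have h6 := card_le_card hsub
  rw [card_insert_of_notMem hMn] at h6
  omega

end H98W
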