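import Pool.Agent.Lib.H98W.A4

/-!
# H98W, file A5: step (a), the induction on the number of components over all tables

`TwoSides k`: the bridging edges for exactly two connected sides are acyclic in degree `k`. `hck_of_two`: then all
connected plane sets with a cut vertex are.
-/

set_option autoImplicit false
set_option linter.unusedSectionVars false

namespace H98W

open Finset H53P H98P H98Z H98M H66N H41F

/-- two connected sides -/
def TwoSides (k : ℕ) : Prop :=
  ∀ (V : Type) [Fintype V] [DecidableEq V] (T : Table V) (v : V) (A B : Finset V)
    (F : Finset (Sym2 V)), Plane (crossT T) F → F ⊆ LW (insert v (A ∪ B)) → v ∉ A → v ∉ B →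
    Disjoint A B → (∀ a ∈ A, ∀ b ∈ B, s(a, b) ∉ F) → Conn F A → Conn F B →
    (∃ a ∈ A, s(v, a) ∈ F) → (∃ b ∈ B, s(v, b) ∈ F) →
    AcyN (crossT T) k (Miss (crossT T) (br A B) F)

/-- every vertex can be doubled at every position -/
def TwinHyp : Prop :=
  ∀ (V : Type) [Fintype V] [DecidableEq V] (T : Table V) (x w : V), x ≠ w →
    ∃ ρ : V → ℝ, (∀ a b, a ≠ x → b ≠ x → ρ a = ρ b → a = b) ∧
      (∀ z, z ≠ x → z ≠ w → ρ w < ρ z) ∧
      ∀ π : ℝ, (∀ z, z ≠ x → ρ z ≠ π) → ∃ T' : Table (Option V), Tw T T' x ρ π

theorem main_ind {k : ℕ} (hT2 : TwoSides k) (hTw : TwinHyp) : ∀ (m : ℕ) (V : Type) [Fintype V]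
    [DecidableEq V] (T : Table V) (W : Finset V) (v : V) (j : ℕ) (F : Finset (Sym2 V)),
    (LW W).card - F.card = j → F ⊆ LW W → Plane (crossT T) F → v ∈ W → ¬ Disc W F →
    Disc (W.erase v) (F.filter fun e => v ∉ e) → AtMost m W F v →
    AcyN (crossT T) k (Un (crossT T) W F) := by
  intro m
  induction m using Nat.strong_induction_on with
  | _ m ih =>
    intro V _ _ T W v j
    induction j using Nat.strong_induction_on with
    | _ j ihj =>
      intro F hj hF hp hv hc hd hm
      -- larger sets
      have hbig : ∀ F' : Finset (Sym2 V), F ⊆ F' → F.card < F'.card → F' ⊆ LW W →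
          Plane (crossT T) F' → Disc (W.erase v) (F'.filter fun e => v ∉ e) →
          AcyN (crossT T) k (Un (crossT T) W F') := by
        intro F' h1 h2 h3 h4 h5
        have h6 := card_le_card h3
        exact ihj _ (by omega) F' rfl h3 h4 hv (not_disc_mono hc h1) h5 (hm.mono h1)
      by_cases h3 : ∃ c, Col W F v c ∧ 3 ≤ ((W.erase v).image c).card
      · -- at least three colours
        obtain ⟨c, hcol, hc3⟩ := h3
        -- every colour class has a neighbour of `v`
        have hnb : ∀ z ∈ W.erase v, ∃ a, s(v, a) ∈ F ∧ c a = c z := by
          intro z hz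
          obtain ⟨a, ha, h1⟩ := exists_nb (A := (W.erase v).filter fun x => c x = c z) hc hv
            (filter_subset _ _) ⟨z, mem_filter.2 ⟨hz, rfl⟩⟩ (by
              intro x hx y hy hyn hxy
              rw [mem_filter] at hx hyn
              exact hyn ⟨hy, by rw [← hcol x hx.1 y hy hxy]; exact hx.2⟩)
          exact ⟨a, h1, (mem_filter.1 ha).2⟩
        -- two vertices of different colours
        obtain ⟨n1, hn1, n2, hn2, hn12⟩ := one_lt_card.1 (show 1 < ((W.erase v).image c).card by omega)
        obtain ⟨z1, hz1, rfl⟩ := mem_image.1 hn1
        obtain ⟨z2, hz2, rfl⟩ := mem_image.1 hn2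
        obtain ⟨a1, ha1, hca1⟩ := hnb z1 hz1
        obtain ⟨a2, ha2, hca2⟩ := hnb z2 hz2
        obtain ⟨ρ, hi, -, htw⟩ := hTw V T v z1 (Ne.symm (mem_erase.1 hz1).1)
        obtain ⟨y, q, hy, hq, hvy, hvq, hyq, hlt, hgap⟩ :=
          exists_pair (c := c) hF hi ha1 ha2 (by rw [hca1, hca2]; exact hn12)
        obtain ⟨π, hπ1, hπ2, hπ⟩ := exists_free (v := v) hlt
        obtain ⟨T', hT'⟩ := htw π hπ
        -- the third colour
        obtain ⟨a0, ha0, hay, haq⟩ : ∃ a0 ∈ W.erase v, c a0 ≠ c y ∧ c a0 ≠ c q := by
          by_contra hcon
          push Not at hcon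
          have h1 : (W.erase v).image c ⊆ {c y, c q} := by
            intro n hn
            obtain ⟨z, hz, rfl⟩ := mem_image.1 hn
            rw [mem_insert, mem_singleton]
            by_cases h2 : c z = c y
            · exact Or.inl h2
            · exact Or.inr (hcon z hz h2)
          have h2 := card_le_card h1
          have h3 : ({c y, c q} : Finset ℕ).card ≤ 2 := card_le_two
          omega
        obtain ⟨A, hA⟩ : ∃ A : Finset V, A = (W.erase v).filter fun x => c x = c a0 := ⟨_, rfl⟩
        obtain ⟨B, hB⟩ : ∃ B : Finset V, B = (W.erase v).filter fun x => c x ≠ c a0 := ⟨_, rfl⟩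
        have mA : ∀ x, x ∈ A ↔ x ∈ W.erase v ∧ c x = c a0 := fun x => by rw [hA, mem_filter]
        have mB : ∀ x, x ∈ B ↔ x ∈ W.erase v ∧ c x ≠ c a0 := fun x => by rw [hB, mem_filter]
        have hyB : y ∈ B := (mB y).2 ⟨hy, hay.symm⟩
        have hqB : q ∈ B := (mB q).2 ⟨hq, haq.symm⟩
        have hAB : Disjoint A B := disjoint_left.2 fun x h1 h2 => ((mB x).1 h2).2 ((mA x).1 h1).2
        have hABW : A ∪ B = W.erase v := by
          ext x
          rw [mem_union, mA, mB]
          tauto
        have hAn : A.Nonempty := ⟨a0, (mA a0).2 ⟨ha0, rfl⟩⟩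
        have hBn : B.Nonempty := ⟨y, hyB⟩
        have hAW : A ⊆ W := fun x hx => mem_of_mem_erase ((mA x).1 hx).1
        have hBW : B ⊆ W := fun x hx => mem_of_mem_erase ((mB x).1 hx).1
        have hvA : v ∉ A := fun h => (mem_erase.1 ((mA v).1 h).1).1 rfl
        have hvB : v ∉ B := fun h => (mem_erase.1 ((mB v).1 h).1).1 rfl
        have hyA : y ∉ A := fun h => disjoint_left.1 hAB h hyB
        have hqA : q ∉ A := fun h => disjoint_left.1 hAB h hqB
        have hs : ∀ x ∈ A, ∀ y ∈ B, s(x, y) ∉ F := by
          intro x hx y hy hxy
          exact ((mB y).1 hy).2 (by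
            rw [← hcol x ((mA x).1 hx).1 y ((mB y).1 hy).1 hxy]
            exact ((mA x).1 hx).2)
        have hS := crossT_mk T
        have hS' := crossT_mk T'
        have hdg : ∀ e ∈ F, ¬ e.IsDiag := by
          intro e he
          have h1 := hF he
          induction e with
          | _ a b =>
            rw [Sym2.mk_isDiag_iff]
            exact (mem_LW.1 h1).2.2
        have hmrg : Mrg F v y q ρ π :=
          { yv := (mem_erase.1 hy).1
            qv := (mem_erase.1 hq).1
            vy := hvy
            vq := hvq
            hq := hπ1
            hy := hπ2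
            gap := hgap }
        -- the bridging edges in the twin table
        have hsome : ∀ x : V, x ∉ A → some x ∉ A.image some := fun x hx h => by
          obtain ⟨x', hx', h1⟩ := mem_image.1 h
          exact hx (Option.some.inj h1 ▸ hx')
        have hdis' : Disjoint (A.image some) (insert none (B.image some)) := by
          rw [disjoint_left]
          intro z hz hz2
          obtain ⟨x, hx, rfl⟩ := mem_image.1 hz
          rcases mem_insert.1 hz2 with h | h
          · exact absurd h (by simp)
          · obtain ⟨x', hx', h1⟩ := mem_image.1 h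
            exact disjoint_left.1 hAB hx (Option.some.inj h1 ▸ hx')
        have hU' : A.image some ∪ insert none (B.image some) =
            (insert none (W.image some)).erase (some v) := by
          rw [erase_some, union_insert, ← image_union, hABW]
        have hs' : ∀ x ∈ A.image some, ∀ y' ∈ insert none (B.image some), s(x, y') ∉ F2 F y q := by
          intro x hx y' hy' hxy
          obtain ⟨a, ha, rfl⟩ := mem_image.1 hx
          rcases mem_insert.1 hy' with rfl | h
          · rw [Sym2.eq_swap, none_mem] at hxy
            rcases hxy with rfl | rfl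
            · exact hyA ha
            · exact hqA ha
          · obtain ⟨b, hb, rfl⟩ := mem_image.1 h
            exact hs a ha b hb (mp_mem.1 hxy)
        have hm1 : 1 ≤ m := by
          have := hm c hcol
          omega
        have hF2 := F2_sub (y := y) (q := q) hF (mem_of_mem_erase hy) (mem_of_mem_erase hq)
        have hp2 : Plane (crossT T') (F2 F y q) := plane_F2 hT' hmrg hS hS' hdg hp
        have hE' : AcyN (crossT T') k (Miss (crossT T') (br (A.image some)
            (insert none (B.image some))) (F2 F y q)) := by
          refine e_of_mN (W := insert none (W.image some)) (crossT_symm T') ?_ ?_ hdis' _ _ rfl ?_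
            hF2 hp2 hs'
          · exact fun z hz => by
              obtain ⟨x, hx, rfl⟩ := mem_image.1 hz
              exact mem_insert_of_mem (mem_image_of_mem _ (hAW hx))
          · intro z hz
            rcases mem_insert.1 hz with rfl | h
            · exact mem_insert_self _ _
            · obtain ⟨x, hx, rfl⟩ := mem_image.1 h
              exact mem_insert_of_mem (mem_image_of_mem _ (hBW hx))
          · intro F' h1 h2 h3 h4
            refine ih (m - 1) (by omega) (Option V) T' (insert none (W.image some)) (some v) _ F' rfl h2
              h3 (mem_insert_of_mem (mem_image_of_mem _ hv))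
              (not_disc_mono (F2_conn hc (mem_of_mem_erase hy)) h1) ?_ ?_
            · exact disc_of_sep (hAn.image some) ⟨none, mem_insert_self _ _⟩ hdis' hU' h4
            · refine AtMost.mono (F2_atMost ?_ hy hq hcol hyq) h1
              rw [Nat.sub_add_cancel hm1]
              exact hm
        rw [stepa_be hT' hmrg hS hS' hi hdg hvA hvB hyA hqA] at hE'
        -- remove the edges of the twin
        have hE0' : AcyN (crossT T') k ((Miss (crossT T) (br A B) F).image mp) := by
          have hdisj : Disjoint ((Miss (crossT T) (br A B) F).image mp)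
              ((A0 (crossT T) F A v y q ρ).image fun a => s(none, some a)) := by
            rw [disjoint_left]
            intro e he he2
            obtain ⟨e0, -, rfl⟩ := mem_image.1 he
            obtain ⟨a, -, h1⟩ := mem_image.1 he2
            induction e0 with
            | _ a' b' =>
              rw [mp_mk, Sym2.eq_iff] at h1
              rcases h1 with ⟨h1, -⟩ | ⟨h1, -⟩ <;> exact absurd h1 (by simp)
          refine splitN_mp (crossT_symm T') hdisj (fun Y hY hYn hYp => ?_) hE'
          obtain ⟨A1, hA1, hA1e⟩ : ∃ A1 : Finset V, A1 ⊆ A0 (crossT T) F A v y q ρ ∧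
              Y = A1.image fun a => s(none, some a) := by
            obtain ⟨A1, h1, h2⟩ := subset_image_iff.1 hY
            exact ⟨A1, h1, h2.symm⟩
          have hA1A : ∀ a ∈ A1, a ∈ A := fun a ha => (mem_A0.1 (hA1 ha)).1
          have hvA1 : v ∉ A1 := fun h => hvA (hA1A v h)
          rw [hA1e, stepa_link hT' hS hS' hvA hvB hvA1]
          -- the larger set
          obtain ⟨G, hG⟩ : ∃ G : Finset (Sym2 V), G = F ∪ A1.image fun a => s(v, a) := ⟨_, rfl⟩
          rw [← hG]
          have hA1n : A1.Nonempty := by
            rw [hA1e] at hYn
            exact hYn.of_image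
          have hGW : G ⊆ LW W := by
            rw [hG]
            refine union_subset hF fun e he => ?_
            obtain ⟨a, ha, rfl⟩ := mem_image.1 he
            have haA := hA1A a ha
            exact mem_LW.2 ⟨hv, hAW haA, fun h => hvA (h ▸ haA)⟩
          have hGp : Plane (crossT T) G := by
            rw [hG]
            refine plane_un (crossT_symm T) hp ?_ ?_
            · intro e he f hf hcr
              obtain ⟨a, -, rfl⟩ := mem_image.1 he
              obtain ⟨b, -, rfl⟩ := mem_image.1 hf
              exact crossT_adj T _ _ _ hcr
            · intro e he f hf hcr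
              obtain ⟨a, ha, rfl⟩ := mem_image.1 hf
              exact (mem_A0.1 (hA1 ha)).2.1 e he (crossT_symm T _ _ hcr)
          have hGs : ∀ x ∈ A, ∀ y ∈ B, s(x, y) ∉ G := by
            intro x hx y hy hxy
            rw [hG] at hxy
            rcases mem_union.1 hxy with h | h
            · exact hs x hx y hy h
            · obtain ⟨a, ha, h1⟩ := mem_image.1 h
              rw [Sym2.eq_iff] at h1
              rcases h1 with ⟨h1, -⟩ | ⟨h1, -⟩
              · exact hvA (h1 ▸ hx)
              · exact hvB (h1 ▸ hy)
          have hFG : F.card < G.card := by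
            have h1 : F ⊂ G := by
              rw [Finset.ssubset_iff_subset_ne]
              refine ⟨by rw [hG]; exact subset_union_left, fun h => ?_⟩
              obtain ⟨a, ha⟩ := hA1n
              have h2 : s(v, a) ∈ F := by
                rw [h, hG]
                exact mem_union_right _ (mem_image_of_mem _ ha)
              have h3 := mem_A0.1 (hA1 ha)
              exact hgap a (fun h4 => hvA (h4 ▸ hA1A a ha)) h2 h3.2.2
            exact card_lt_card h1
          have hFGs : F ⊆ G := by rw [hG]; exact subset_union_left
          have hGacy : AcyN (crossT T) k (Miss (crossT T) (br A B) G) := by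
            refine e_of_mN (W := W) (crossT_symm T) hAW hBW hAB _ _ rfl ?_ hGW hGp hGs
            intro F' h1 h2 h3 h4
            have h5 := card_le_card h1
            exact hbig F' (hFGs.trans h1) (by omega) h2 h3 (disc_of_sep hAn hBn hAB hABW h4)
          refine isoN (cross := crossT T') (cross' := crossT T) (Sym2.map fun o => o.getD v) ?_ ?_ ?_ hGacy
          · intro e he f hf hef
            obtain ⟨e0, -, rfl⟩ := mem_image.1 he
            obtain ⟨f0, -, rfl⟩ := mem_image.1 hf
            have h1 : ∀ e : Sym2 V, Sym2.map (fun o : Option V => o.getD v) (mp e) = e := by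
              intro e
              induction e with
              | _ a b => rfl
            rw [h1, h1] at hef
            rw [hef]
          · rw [image_image]
            have h1 : (Sym2.map fun o : Option V => o.getD v) ∘ mp = id := by
              funext e
              induction e with
              | _ a b => rfl
            rw [h1, image_id]
          · intro e he f hf
            obtain ⟨e0, -, rfl⟩ := mem_image.1 he
            obtain ⟨f0, -, rfl⟩ := mem_image.1 hf
            have h1 : ∀ e : Sym2 V, Sym2.map (fun o : Option V => o.getD v) (mp e) = e := by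
              intro e
              induction e with
              | _ a b => rfl
            rw [h1, h1]
            exact mp_cross hT' hS hS' e0 f0
        have hE0 : AcyN (crossT T) k (Miss (crossT T) (br A B) F) :=
          isoN (cross := crossT T) (cross' := crossT T') mp (fun a _ b _ h => mp_inj h) rfl
            (fun a _ b _ => (mp_cross hT' hS hS' a b).symm) hE0'
        refine m_of_eN (W := W) (crossT_symm T) hAW hBW hAB ?_ hF hp hs
        intro F' h1 h2 h3 h4
        by_cases h5 : F' = F
        · rw [h5]
          exact hE0
        · have h6 : F.card < F'.card := card_lt_card (Finset.ssubset_iff_subset_ne.2 ⟨h1, Ne.symm h5⟩)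
          refine e_of_mN (W := W) (crossT_symm T) hAW hBW hAB _ _ rfl ?_ h2 h3 h4
          intro F'' g1 g2 g3 g4
          have g5 := card_le_card g1
          exact hbig F'' (h1.trans g1) (by omega) g2 g3 (disc_of_sep hAn hBn hAB hABW g4)
      · -- at most two colours
        have hm2 : AtMost 2 W F v := by
          intro c hcc
          by_contra h4
          exact h3 ⟨c, hcc, by omega⟩
        obtain ⟨A, B, hAn, hBn, hAB, hABW, hs0⟩ := hd
        have hvA : v ∉ A := fun h => by
          have h1 : v ∈ W.erase v := by rw [← hABW]; exact mem_union_left _ h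
          exact (mem_erase.1 h1).1 rfl
        have hvB : v ∉ B := fun h => by
          have h1 : v ∈ W.erase v := by rw [← hABW]; exact mem_union_right _ h
          exact (mem_erase.1 h1).1 rfl
        have hAe : A ⊆ W.erase v := by rw [← hABW]; exact subset_union_left
        have hBe : B ⊆ W.erase v := by rw [← hABW]; exact subset_union_right
        have hAW : A ⊆ W := hAe.trans (erase_subset _ _)
        have hBW : B ⊆ W := hBe.trans (erase_subset _ _)
        have hs : ∀ x ∈ A, ∀ y ∈ B, s(x, y) ∉ F := by
          intro x hx y hy h
          refine hs0 x hx y hy (mem_filter.2 ⟨h, fun h1 => ?_⟩)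
          rcases Sym2.mem_iff.1 h1 with rfl | rfl
          · exact hvA hx
          · exact hvB hy
        have hs2 : ∀ x ∈ B, ∀ y ∈ A, s(x, y) ∉ F := by
          intro x hx y hy h
          rw [Sym2.eq_swap] at h
          exact hs y hy x hx h
        have cA := conn_of_atMost hm2 hAB hABW hs hBn
        have cB := conn_of_atMost hm2 hAB.symm (by rw [union_comm]; exact hABW) hs2 hAn
        obtain ⟨a, ha, hva⟩ := exists_nb hc hv hAe hAn (by
          intro x hx y hy hyn h
          rw [← hABW, mem_union] at hy
          rcases hy with hy | hy
          · exact hyn hy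
          · exact hs x hx y hy h)
        obtain ⟨b, hb, hvb⟩ := exists_nb hc hv hBe hBn (by
          intro x hx y hy hyn h
          rw [← hABW, mem_union] at hy
          rcases hy with hy | hy
          · exact hs2 x hx y hy h
          · exact hyn hy)
        refine m_of_eN (W := W) (crossT_symm T) hAW hBW hAB ?_ hF hp hs
        intro F' h1 h2 h3' h4
        refine hT2 V T v A B F' h3' ?_ hvA hvB hAB h4 (cA.mono h1) (cB.mono h1) ⟨a, ha, h1 hva⟩
          ⟨b, hb, h1 hvb⟩
        rw [hABW, insert_erase hv]
        exact h2

theorem hck_of_two {k : ℕ} (hT2 : TwoSides k) (hTw : TwinHyp) (V : Type) [Fintype V]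
    [DecidableEq V] (T : Table V) (W : Finset V) : HCk (crossT T) k W :=
  fun F v hF hp hv hc hd => main_ind hT2 hTw W.card V T W v _ F rfl hF hp hv hc hd
    (atMost_card W F v)

end H98W
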